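import Pool.Agent.Helper17.DF.Geo
import Pool.Agent.Helper32.CT.EmbRing

set_option autoImplicit false

/-!
# DG-5a: embedding of a coded piece from base darts
-/

namespace Pool.Agent.Helper17.CT
open Function

section
variable {D : Type} [Finite D] {M : CMap D}

omit [Finite D] in
/-- `ι x = s^[x % 3] (bs (x / 3))`, as in Helper32/CT/EmbRing -/
theorem emb_mk (F : Code) (hF : CodeOK F) (bs : ℕ → D)
    (h1 : ∀ v < F.n, ∀ v' < F.n, M.VEq (bs v) (bs v') → v = v')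
    (h2 : ∀ x < 3 * F.n, d4 F.P x = 0 →
      (M.s)^[d6 F.E x % 3] (bs (d6 F.E x / 3)) = M.a ((M.s)^[x % 3] (bs (x / 3)))) :
    Nonempty (Emb (piece F hF) M) := by
  refine ⟨⟨fun x => M.s^[(x : ℕ) % 3] (bs ((x : ℕ) / 3)), ?_, ?_, ?_⟩⟩
  · rintro ⟨x, hx⟩ ⟨y, hy⟩ hxy
    have hxy' : M.s^[x % 3] (bs (x / 3)) = M.s^[y % 3] (bs (y / 3)) := hxy
    have m1 : x % 3 < 3 := Nat.mod_lt _ (by norm_num)
    have m2 : y % 3 < 3 := Nat.mod_lt _ (by norm_num)
    have e1 := h1 (x / 3) (by omega) (y / 3) (by omega) (VEq_of_rot32 M m1 m2 hxy')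
    rw [e1] at hxy'
    have e2 := rot_inj32 M m1 m2 hxy'
    apply Fin.ext
    change x = y
    omega
  · rintro ⟨x, hx⟩
    change M.s^[nx x % 3] (bs (nx x / 3)) = M.s (M.s^[x % 3] (bs (x / 3)))
    have e0 : nx x = 3 * (x / 3) + (x % 3 + 1) % 3 := rfl
    have e1 : nx x / 3 = x / 3 := by omega
    have m2 : x % 3 = 0 ∨ x % 3 = 1 ∨ x % 3 = 2 := by omega
    rw [e1]
    rcases m2 with m2 | m2 | m2
    · have e2 : nx x % 3 = 1 := by omega
      rw [e2, m2]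
      rfl
    · have e2 : nx x % 3 = 2 := by omega
      rw [e2, m2]
      rfl
    · have e2 : nx x % 3 = 0 := by omega
      rw [e2, m2]
      change bs (x / 3) = M.s (M.s (M.s (bs (x / 3))))
      rw [M.s3]
  · rintro ⟨x, hx⟩ hq
    have hp : d4 F.P x = 0 := (port_iff hF ⟨x, hx⟩).1 hq
    exact h2 x hx hp

end

end Pool.Agent.Helper17.CT
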